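import Mathlib
import Pool.Agent.V1156.MJ.Disc

/-!
# Margulis' injectivity radius conjecture over number fields of large discriminant

Number fields `k`, of any degree `m`, are considered whose discriminant satisfies
`|d(k)| ≥ (δ m) ^ m`, with a fixed `δ > 0`; an example, with `δ = 1`, are the maximal real subfields
of the cyclotomic fields of prime order.  If `S` is the set of the noncompact embeddings it is assumed that for `σ ≠ σ'` in `S` the
field generated by `σ k` and `σ' k` has degree larger than `s n ^ 2 m`; there is no condition if `S`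
has only one element, which is the case of a simple group and a totally real field.  All torsion-free
arithmetic groups over these fields, realized by integral matrices of size `n`, with at most `s`
noncompact embeddings, form a uniformly discrete family, and the size of the neighbourhood depends
on `δ` only through a power of `log (n / δ)`.

Method.  The lower bound `Pool.Agent.Y399.MG.lower` for algebraic integers in extensions of degree at
most `n` of number fields of large discriminant is applied to an eigenvalue which is not a root of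
unity.
-/

set_option autoImplicit false

namespace Pool.Agent.Results.MP_162bbe_gt.LargeDiscriminants

open NumberField Module Pool.Agent.H225R3.Marg

universe u

/-- The degree over the rationals of the field generated by `σ k` and `σ' k`. -/
noncomputable def pairDegree {k : Type} [Field k] (σ σ' : k →+* ℂ) : ℕ :=
  finrank ℚ (IntermediateField.adjoin ℚ (Set.range σ ∪ Set.range σ'))

/-- The discriminant of the number field `k`, of degree `m`, has absolute value at least
`(δ m) ^ m`, and for all `σ ≠ σ'` in `S` the field generated by `σ k` and `σ' k` has degree larger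
than `s n ^ 2 m`. -/
def LargeDiscriminant (δ : ℝ) (s n : ℕ) (k : Type) [Field k] [NumberField k]
    (S : Finset (k →+* ℂ)) : Prop :=
  (δ * finrank ℚ k) ^ finrank ℚ k ≤ |(discr k : ℝ)| ∧
    ∀ σ ∈ S, ∀ σ' ∈ S, σ ≠ σ' → s * n ^ 2 * finrank ℚ k < pairDegree σ σ'

/-- There is no element of finite order other than the identity. -/
def TorsionFree {G : Type*} [Group G] (Γ : Subgroup G) : Prop :=
  ∀ γ ∈ Γ, ∀ N : ℕ, 0 < N → γ ^ N = 1 → γ = 1

/-- The torsion-free subgroups `Γ` of `G` that have a realization by matrices of size `n`, with a set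
`S` of at most `s` noncompact embeddings, over a number field `k` with
`LargeDiscriminant δ s n k S`. -/
def Family (δ : ℝ) (s n : ℕ) {G : Type*} [Group G] {M : ℕ}
    (ρ : G →* Matrix (Fin M) (Fin M) ℂ) : Set (Subgroup G) :=
  {Γ | TorsionFree Γ ∧
    ∃ (k : Type) (_ : Field k) (_ : NumberField k) (S : Finset (k →+* ℂ))
      (_ : Realization ρ Γ k n S), S.card ≤ s ∧ LargeDiscriminant δ s n k S}

/-- Every `γ ≠ 1` in `Γ` has an eigenvalue `l` under one of the noncompact embeddings, which is also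
an eigenvalue of `ρ γ`, with `|l| > 1` and `a ≤ N log |l|`. -/
def EigenvalueBound {G : Type*} [Group G] {M : ℕ} {ρ : G →* Matrix (Fin M) (Fin M) ℂ}
    {Γ : Subgroup G} {k : Type} [Field k] [NumberField k] {n : ℕ} {S : Finset (k →+* ℂ)}
    (R : Realization ρ Γ k n S) (N : ℕ) (a : ℝ) : Prop :=
  ∀ γ : Γ, γ ≠ 1 → ∃ σ ∈ S, ∃ l : ℂ, IsEig (conjMat σ (R.r γ)) l ∧ IsEig (ρ γ) l ∧
    1 < ‖l‖ ∧ a ≤ N * Real.log ‖l‖

/-- **Margulis' conjecture over number fields of large discriminant.** -/
theorem result :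
    (∃ c : ℝ, 0 < c ∧ ∀ (G : Type u) [Group G] (M : ℕ) (ρ : G →* Matrix (Fin M) (Fin M) ℂ)
      (Γ : Subgroup G) (k : Type) [Field k] [NumberField k]
      (n s : ℕ) (S : Finset (k →+* ℂ)) (R : Realization ρ Γ k n S) (δ : ℝ), 0 < δ →
      TorsionFree Γ → S.card ≤ s → LargeDiscriminant δ s n k S → EigenvalueBound R (s * n)
        (c * (Real.log (Real.log (16 + n / δ)) / Real.log (16 + n / δ)) ^ 3)) ∧
    (∀ (G : Type u) [Group G] [TopologicalSpace G] (M : ℕ) (ρ : G →* Matrix (Fin M) (Fin M) ℂ),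
      Continuous ρ → ∀ δ : ℝ, 0 < δ → ∀ s n : ℕ, UniformlyDiscrete (Family δ s n ρ)) := by
  have aux : ∀ {G : Type u} [Group G] {M : ℕ} {ρ : G →* Matrix (Fin M) (Fin M) ℂ}
      {Γ : Subgroup G} {k : Type} [Field k] [NumberField k] {n : ℕ} {S : Finset (k →+* ℂ)}
      (R : Realization ρ Γ k n S) (_ : TorsionFree Γ)
      (γ : Γ), γ ≠ 1 → ∀ N : ℕ, 0 < N → ¬ IsNilpotent (R.r γ ^ N - 1) := by
    intro G _ M ρ Γ k _ _ n S R htf γ hγ N hN h0
    rw [← map_pow] at h0
    have h1 := R.unipotent _ h0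
    have h2 : (γ : G) ^ N = 1 := congrArg Subtype.val h1
    exact hγ (Subtype.ext (htf _ γ.2 N hN h2))
  obtain ⟨c, hc, hgap⟩ := V1156.MJ.gap_disc
  refine ⟨⟨c, hc, ?_⟩, ?_⟩
  · rintro G _ M ρ Γ k _ _ n s S R δ hδ htf hs ⟨hd, hp⟩ γ hγ
    obtain ⟨σ, hσ, l, hl, hl1, hlow⟩ := hgap k n s S (R.r γ) δ hs hp hδ hd
      ((Group.isUnit γ).map R.r) (fun σ hσ l hl => R.comp' _ σ hσ l hl) (aux R htf γ hγ)
    have hl' : IsEig (conjMat σ (R.r γ)) l := hl
    refine ⟨σ, hσ, l, hl', R.eig σ hσ γ l hl', hl1, ?_⟩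
    exact_mod_cast hlow
  · intro G _ _ M ρ hρ δ hδ s n
    have hpos : 0 < V1156.MJ.lowerC c (n / δ) := V1156.MJ.lowerC_pos hc (by positivity)
    obtain ⟨ε, hε, h⟩ := Pool.Agent.Y399.MG.exists_eps (s * n) _ hpos
    refine ⟨_, nhd ρ hρ ε hε, ?_⟩
    rintro Γ ⟨htf, k, _, _, S, R, hs, hd, hp⟩ g v hv hΓ
    refine final_step' R htf ε hε g v hv hΓ fun hnil => ?_
    have hunit : IsUnit (R.r ⟨g * v * g⁻¹, hΓ⟩) :=
      (Group.isUnit (⟨g * v * g⁻¹, hΓ⟩ : Γ)).map R.r
    obtain ⟨σ, hσ, l, hl, hl1, hlow⟩ := hgap k n s S _ δ hs hp hδ hd hunit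
      (fun σ hσ l hl => R.comp' _ σ hσ l hl) hnil
    exact ⟨σ, hσ, l, hl, h l hlow hl1⟩

end Pool.Agent.Results.MP_162bbe_gt.LargeDiscriminants
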