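import Mathlib
import Pool.Agent.V1156.MJ.Main

/-!
# Margulis' injectivity radius conjecture over number fields with many embeddings into a local field

Let `E` be a nonarchimedean local field of characteristic zero, of residue characteristic `p`,
ramification index `e` and with `q` elements in its residue field, and let `F₀` be a subfield of `E`
such that all polynomials of degree at most `n` over `F₀` split in `E`; for instance `F₀` is any local
field and `E` a finite extension of it that contains its (finitely many) extensions of degree at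
most `n`.  Number fields `k` are considered, of any degree `m`, which have a set of `R` embeddings
into `F₀` with

  `(s n m) ^ 2 (1 + (log p) / e + log (n m)) ≤ (R ^ 2 (log p) / (e (q - 1))) ^ 2`,

that is, `R` is at least a constant, depending on `E`, `s` and `n`, times `√m (log 2 m) ^ (1 / 4)`.
All torsion-free arithmetic groups over all these number fields, for all `p`, `E` and `F₀`, realized
by integral matrices of size `n`, with at most `s` noncompact embeddings, form one uniformly discrete
family, and each of their elements different from `1` has an eigenvalue `l` with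
`|l| ^ (s n) ≥ 1.189`.

Method.  By the transfer principle `Pool.Agent.Y399.MG.gap_transfer` it suffices to bound from below
the Mahler measures of algebraic integers `β`, all of whose powers generate the same field `M`, where
`M` is a subfield, of index at most `s n`, of an extension `L` of `k` of degree at most `n`.  Each
embedding of `k` into `F₀` has `[L : k]` extensions to embeddings of `L` into `E`, so `M` has at least
`R [M : ℚ] / m` embeddings into `E`.  The lower bound `1.189` of `Pool.Agent.Y642.LZ.J` for algebraic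
integers with many conjugates in `E` applies to `β`.
-/

set_option autoImplicit false

namespace Pool.Agent.Results.MP_162bbe_gt.LocalEmbeddings

open NumberField Module Pool.Agent.H225R3.Marg Polynomial

universe u

/-- All monic polynomials of degree at most `n` over the subfield `F₀` of `E` split in `E`. -/
def SplitsUpTo (n : ℕ) {E : Type} [Field E] (F₀ : Subfield E) : Prop :=
  ∀ f : F₀[X], f.Monic → f.natDegree ≤ n → (f.map (algebraMap F₀ E)).Splits

/-- There are a nonarchimedean local field `E.K` of characteristic zero, of residue characteristic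
`p`, ramification index `e`, with `q` elements in the residue field, a subfield `F₀` with
`SplitsUpTo n`, and `R` embeddings of the number field `k`, of degree `m`, into `F₀`, such that
`(s n m) ^ 2 (1 + (log p) / e + log (n m)) ≤ (R ^ 2 (log p) / (e (q - 1))) ^ 2`. -/
def ManyEmbeddings (s n : ℕ) (k : Type) [Field k] [NumberField k] : Prop :=
  ∃ (E : Pool.Agent.Y642.LZ.Place.{0}) (F₀ : Subfield E.K) (T : Finset (k →+* F₀)),
    SplitsUpTo n F₀ ∧
    ((s : ℝ) * n * finrank ℚ k) ^ 2 *
        (1 + Real.log E.p / E.e + Real.log (n * finrank ℚ k)) ≤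
      ((T.card : ℝ) ^ 2 * (Real.log E.p / (E.e * (E.q - 1)))) ^ 2

/-- There is no element of finite order other than the identity. -/
def TorsionFree {G : Type*} [Group G] (Γ : Subgroup G) : Prop :=
  ∀ γ ∈ Γ, ∀ N : ℕ, 0 < N → γ ^ N = 1 → γ = 1

/-- The torsion-free subgroups `Γ` of `G` that have a realization by matrices of size `n`, with at
most `s` noncompact embeddings, over a number field `k` with `ManyEmbeddings s n k`. -/
def Family (s n : ℕ) {G : Type*} [Group G] {M : ℕ}
    (ρ : G →* Matrix (Fin M) (Fin M) ℂ) : Set (Subgroup G) :=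
  {Γ | TorsionFree Γ ∧
    ∃ (k : Type) (_ : Field k) (_ : NumberField k) (S : Finset (k →+* ℂ))
      (_ : Realization ρ Γ k n S), S.card ≤ s ∧ ManyEmbeddings s n k}

/-- Every `γ ≠ 1` in `Γ` has an eigenvalue `l` under one of the noncompact embeddings, which is also
an eigenvalue of `ρ γ`, with `|l| > 1` and `|l| ^ N ≥ μ`. -/
def EigenvalueBound {G : Type*} [Group G] {M : ℕ} {ρ : G →* Matrix (Fin M) (Fin M) ℂ}
    {Γ : Subgroup G} {k : Type} [Field k] [NumberField k] {n : ℕ} {S : Finset (k →+* ℂ)}
    (R : Realization ρ Γ k n S) (N : ℕ) (μ : ℝ) : Prop :=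
  ∀ γ : Γ, γ ≠ 1 → ∃ σ ∈ S, ∃ l : ℂ, IsEig (conjMat σ (R.r γ)) l ∧ IsEig (ρ γ) l ∧
    1 < ‖l‖ ∧ μ ≤ ‖l‖ ^ N

/-- **Margulis' conjecture over number fields with many embeddings into a local field.** -/
theorem result :
    (∀ (G : Type u) [Group G] (M : ℕ) (ρ : G →* Matrix (Fin M) (Fin M) ℂ)
      (Γ : Subgroup G) (k : Type) [Field k] [NumberField k]
      (n s : ℕ) (S : Finset (k →+* ℂ)) (R : Realization ρ Γ k n S), TorsionFree Γ → S.card ≤ s →
      ManyEmbeddings s n k → EigenvalueBound R (s * n) 1.189) ∧
    (∀ (G : Type u) [Group G] [TopologicalSpace G] (M : ℕ) (ρ : G →* Matrix (Fin M) (Fin M) ℂ),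
      Continuous ρ → ∀ s n : ℕ, UniformlyDiscrete (Family s n ρ)) := by
  have aux : ∀ {G : Type u} [Group G] {M : ℕ} {ρ : G →* Matrix (Fin M) (Fin M) ℂ}
      {Γ : Subgroup G} {k : Type} [Field k] [NumberField k] {n : ℕ} {S : Finset (k →+* ℂ)}
      (R : Realization ρ Γ k n S) (_ : TorsionFree Γ)
      (γ : Γ), γ ≠ 1 → ∀ N : ℕ, 0 < N → ¬ IsNilpotent (R.r γ ^ N - 1) := by
    intro G _ M ρ Γ k _ _ n S R htf γ hγ N hN h0
    rw [← map_pow] at h0
    have h1 := R.unipotent _ h0
    have h2 : (γ : G) ^ N = 1 := congrArg Subtype.val h1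
    exact hγ (Subtype.ext (htf _ γ.2 N hN h2))
  refine ⟨?_, ?_⟩
  · rintro G _ M ρ Γ k _ _ n s S R htf hs ⟨E, F₀, T, hsplit, hT⟩ γ hγ
    obtain ⟨σ, hσ, l, hl, hl1, hlow⟩ := V1156.MJ.gap_emb k n s S (R.r γ) hs E F₀ hsplit T hT
      ((Group.isUnit γ).map R.r) (fun σ hσ l hl => R.comp' _ σ hσ l hl) (aux R htf γ hγ)
    have hl' : IsEig (conjMat σ (R.r γ)) l := hl
    refine ⟨σ, hσ, l, hl', R.eig σ hσ γ l hl', hl1, ?_⟩
    rw [← Real.log_pow] at hlow
    have h1 := (Real.log_le_log_iff (by norm_num) (pow_pos (by linarith) (s * n))).mp hlow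
    norm_num at h1 ⊢
    exact h1
  · intro G _ _ M ρ hρ s n
    obtain ⟨ε, hε, h⟩ := V1156.MJ.gap_emb2 s n
    refine ⟨_, nhd ρ hρ ε hε, ?_⟩
    rintro Γ ⟨htf, k, _, _, S, R, hs, E, F₀, T, hsplit, hT⟩ g v hv hΓ
    refine final_step' R htf ε hε g v hv hΓ fun hnil => ?_
    have hunit : IsUnit (R.r ⟨g * v * g⁻¹, hΓ⟩) :=
      (Group.isUnit (⟨g * v * g⁻¹, hΓ⟩ : Γ)).map R.r
    exact h k S _ hs E F₀ hsplit T hT hunit (fun σ hσ l hl => R.comp' _ σ hσ l hl) hnil

end Pool.Agent.Results.MP_162bbe_gt.LocalEmbeddings
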