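import Mathlib
import Pool.Agent.V1156.MJ.Base
import Pool.Agent.TH285.MG.Fam

/-!
# Margulis' injectivity radius conjecture over number fields with virtually abelian Galois closure

Fix a number field `K`, for instance the rational numbers, and natural numbers `B`, `D`, `s`, `n`.
Number fields `k`, of any degree, are considered which have an extension `k'` of degree at most `D`
that is Galois over `K` and whose Galois group over `K` has an abelian subgroup of index at most `B`.
For `D = B = 1` these are the abelian extensions of `K`; the Galois group may also be dihedral of any
order, for instance, and `k` may be a field of degree `r` with dihedral Galois closure of degree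
`2 r`.  All torsion-free arithmetic groups over these fields, realized by integral matrices of size
`n`, with at most `s` noncompact embeddings, form a uniformly discrete family.  Nothing is assumed on
the ramification, on the noncompact embeddings or on the discriminants.

Method.  The realization is extended to `k'`; each noncompact embedding of `k` has `[k' : k]`
extensions to `k'`.  In the Galois group each `σ ^ (B!)` lies in the abelian subgroup and so has at
most `B` conjugates, and the theorem `Pool.Agent.TH285.MG.uniform_galois` (a lower bound for the
canonical heights of the vectors of coefficients of characteristic polynomials) applies.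

`Pool.Agent.H225R3.MargDefs` contains the definitions: `Realization ρ Γ k n S` (a homomorphism `r`
from `Γ` to the `n` by `n` matrices over the ring of integers of `k`, bounded under all embeddings
outside `S`, such that for `σ` in `S` the eigenvalues of `σ (r γ)` are eigenvalues of `ρ γ`, and such
that only `1` is mapped to a unipotent matrix) and `UniformlyDiscrete` (there is an identity
neighbourhood `U` such that `g U g⁻¹` meets every group of the family in the identity only).
-/

set_option autoImplicit false

namespace Pool.Agent.Results.MP_162bbe_gt.VirtuallyAbelianFields

open NumberField Module Pool.Agent.H225R3.Marg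

/-- The group has an abelian subgroup of index at most `B`. -/
def VirtuallyAbelian (B : ℕ) (Q : Type*) [Group Q] : Prop :=
  ∃ A : Subgroup Q, A.index ≠ 0 ∧ A.index ≤ B ∧ ∀ a ∈ A, ∀ b ∈ A, a * b = b * a

/-- The number field `k` has an extension of degree at most `D` that is Galois over `K`, with a
Galois group having an abelian subgroup of index at most `B`. -/
def VirtuallyAbelianClosure (K : Type) [Field K] (B D : ℕ) (k : Type) [Field k] [NumberField k] :
    Prop :=
  ∃ (k' : Type) (_ : Field k') (_ : NumberField k') (_ : Algebra K k') (_ : IsGalois K k')
    (_ : Algebra k k'), finrank k k' ≤ D ∧ VirtuallyAbelian B Gal(k'/K)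

/-- There is no element of finite order other than the identity. -/
def TorsionFree {G : Type*} [Group G] (Γ : Subgroup G) : Prop :=
  ∀ γ ∈ Γ, ∀ N : ℕ, 0 < N → γ ^ N = 1 → γ = 1

/-- The torsion-free subgroups `Γ` of `G` that have a realization by matrices of size `n`, with at
most `s` noncompact embeddings, over a number field `k` with `VirtuallyAbelianClosure K B D k`. -/
def Family (K : Type) [Field K] (B D s n : ℕ) {G : Type*} [Group G] {M : ℕ}
    (ρ : G →* Matrix (Fin M) (Fin M) ℂ) : Set (Subgroup G) :=
  {Γ | TorsionFree Γ ∧
    ∃ (k : Type) (_ : Field k) (_ : NumberField k) (S : Finset (k →+* ℂ))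
      (_ : Realization ρ Γ k n S), S.card ≤ s ∧ VirtuallyAbelianClosure K B D k}

/-- **Margulis' conjecture over number fields with virtually abelian Galois closure.** -/
theorem result {G : Type*} [Group G] [TopologicalSpace G] {M : ℕ}
    (ρ : G →* Matrix (Fin M) (Fin M) ℂ) (hρ : Continuous ρ)
    (K : Type) [Field K] [NumberField K] (B D s n : ℕ) :
    UniformlyDiscrete (Family K B D s n ρ) := by
  obtain ⟨U, hU, h⟩ := Pool.Agent.TH285.MG.uniform_galois K B.factorial B (D * s) n
    (Nat.factorial_pos B) ρ hρ
  refine ⟨U, hU, ?_⟩
  rintro Γ ⟨htf, k, i1, i2, S, R, hs, k', j1, j2, j3, j4, j5, hD, A, hA0, hAB, hcomm⟩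
  refine h Γ ⟨htf, k', j1, j2, j3, j4, V1156.MJ.above S, V1156.MJ.baseChange R, ?_, ?_⟩
  · exact (V1156.MJ.above_card S).trans (Nat.mul_le_mul hD hs)
  · intro σ
    exact (V1156.MJ.conj_card A hA0 hcomm
      (V1156.MJ.pow_mem_of_index A hA0 hAB σ)).trans hAB

end Pool.Agent.Results.MP_162bbe_gt.VirtuallyAbelianFields
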